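import Pool.Agent.L7h12.PO.Stm

set_option autoImplicit false

/-! Path odd-covers with at most `n/2 + 12` paths: residue classes of a list (CLS). -/

namespace Pool.Agent.L7h23.PO

open Pool.Agent.W722.PO Pool.Agent.L7h12.PO

theorem cls_aux {α : Type*} (c : ℕ) (hc : 0 < c) : ∀ (Es : List α), ∃ F : ℕ → List α,
    (∀ j < c, ∀ i : ℕ, (F j)[i]? = Es[c * i + j]?) ∧
    (∑ j ∈ Finset.range c, (F j : Multiset α)) = (Es : Multiset α) := by
  intro Es
  induction Es with
  | nil =>
    refine ⟨fun _ => [], fun j _ i => by simp, by simp⟩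
  | cons e Es ih =>
    obtain ⟨F, hF, hs⟩ := ih
    obtain ⟨d, rfl⟩ : ∃ d, c = d + 1 := ⟨c - 1, by omega⟩
    refine ⟨fun j => match j with
      | 0 => e :: F d
      | (k + 1) => F k, ?_, ?_⟩
    · intro j hj i
      match j, hj with
      | 0, _ =>
        match i with
        | 0 => simp
        | (m + 1) =>
          show (e :: F d)[m + 1]? = _
          rw [List.getElem?_cons_succ, hF d (by omega) m]
          have : (d + 1) * (m + 1) + 0 = ((d + 1) * m + d) + 1 := by ring
          rw [this, List.getElem?_cons_succ]
      | (k + 1), hk =>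
        show (F k)[i]? = _
        rw [hF k (by omega) i]
        have : (d + 1) * i + (k + 1) = ((d + 1) * i + k) + 1 := by ring
        rw [this, List.getElem?_cons_succ]
    · rw [Finset.sum_range_succ'] 
      rw [Finset.sum_range_succ] at hs
      show (∑ k ∈ Finset.range d, ((F k : List α) : Multiset α)) + ((e :: F d : List α) : Multiset α) = _
      rw [← Multiset.cons_coe, ← Multiset.cons_coe, ← hs, Multiset.add_cons]

theorem s_CLS : S_CLS := fun c hc Es => cls_aux c hc Es

end Pool.Agent.L7h23.PO
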