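import Pool.Agent.L7h12.PO.Stm
import Pool.Agent.W722.PO.PAIR
import Pool.Agent.W722.PO.PAIRS
import Pool.Agent.W722.PO.ABS2

set_option autoImplicit false

/-! Path odd-covers with at most `n/2 + 12` paths: removing greedily the pairs of cycles which are sums
of two paths (PRS, same proof as `PAIRS_holds`). -/

namespace Pool.Agent.L7h23.PO

open Pool.Agent.W722.PO Pool.Agent.L7h12.PO Pool.Agent.W722.PO.ABS2x Pool.Agent.W722.PO.PAIRSx

theorem s_PRS (hT4 : S_T4) : S_PRS := by
  classical
  intro Cs
  induction Cs with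
  | nil =>
    intro _
    refine ⟨[], [], ?_, ?_, ?_, ?_, ?_, ?_, ?_⟩ <;> simp [csum, psum]
    funext e
    simp [par]
  | cons C Cs ih =>
    intro hC
    obtain ⟨Ps, Cs', h1, h2, h3, h4, h5, h6, h7⟩ :=
      ih (fun D hD => hC D (List.mem_cons_of_mem _ hD))
    by_cases hs : ∀ D ∈ Cs', Ok2 C D
    · refine ⟨Ps, C :: Cs', h1, ?_, ?_, ?_, ?_, ?_, ?_⟩
      · intro c hc
        rcases List.mem_cons.1 hc with rfl | hc
        · exact List.mem_cons_self
        · exact List.mem_cons_of_mem _ (h2 c hc)
      · rw [csum_cons, csum_cons]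
        exact add_le_add le_rfl h3
      · simp only [List.length_cons]
        omega
      · rw [csum_cons, csum_cons, par_add, par_add, h5]
        abel
      · intro p hp v hv
        obtain ⟨c, hc, hvc⟩ := h6 p hp v hv
        exact ⟨c, List.mem_cons_of_mem _ hc, hvc⟩
      · exact List.pairwise_cons.2 ⟨hs, h7⟩
    · push Not at hs
      obtain ⟨D, hD, hst⟩ := hs
      have hex : ∃ P Q : List ℕ, IsP P ∧ IsP Q ∧ (∀ v ∈ P, v ∈ C ∨ v ∈ D) ∧
          (∀ v ∈ Q, v ∈ C ∨ v ∈ D) ∧ par (cm C) + par (cm D) = par (pm P) + par (pm Q) := by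
        by_cases hst1 : Star C D
        · have h8 : ¬ (Cov D C ∨ Cov C D) := fun h => hst ⟨hst1, h⟩
          exact hT4 C D (hC C List.mem_cons_self) (hC D (List.mem_cons_of_mem _ (h2 D hD)))
            (fun h => h8 (Or.inl h)) (fun h => h8 (Or.inr h))
        · obtain ⟨P, Q, hP1, hQ1, hPv, hQv, hsum⟩ := PAIR_holds C D (hC C List.mem_cons_self)
            (hC D (List.mem_cons_of_mem _ (h2 D hD))) hst1
          exact ⟨P, Q, hP1, hQ1, hPv, hQv, by rw [← par_add, ← par_add, hsum]⟩
      obtain ⟨P, Q, hP1, hQ1, hPv, hQv, hsum⟩ := hex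
      have hlen : (Cs'.erase D).length = Cs'.length - 1 := List.length_erase_of_mem hD
      have hpos : 0 < Cs'.length := List.length_pos_of_mem hD
      have hcs : csum Cs' = cm D + csum (Cs'.erase D) := by
        rw [csum_perm (List.perm_cons_erase hD), csum_cons]
      refine ⟨P :: Q :: Ps, Cs'.erase D, ?_, ?_, ?_, ?_, ?_, ?_, ?_⟩
      · intro p hp
        rcases List.mem_cons.1 hp with rfl | hp
        · exact hP1
        rcases List.mem_cons.1 hp with rfl | hp
        · exact hQ1
        · exact h1 p hp
      · intro c hc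
        exact List.mem_cons_of_mem _ (h2 c (List.mem_of_mem_erase hc))
      · rw [csum_cons]
        refine le_trans ?_ (Multiset.le_add_left _ _)
        refine le_trans ?_ h3
        rw [hcs]
        exact Multiset.le_add_left _ _
      · simp only [List.length_cons]
        omega
      · rw [csum_cons, psum_cons, psum_cons, par_add, par_add, par_add, h5, hcs, par_add]
        linear_combination hsum
      · intro p hp v hv
        rcases List.mem_cons.1 hp with rfl | hp
        · rcases hPv v hv with h | h
          · exact ⟨C, List.mem_cons_self, h⟩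
          · exact ⟨D, List.mem_cons_of_mem _ (h2 D hD), h⟩
        rcases List.mem_cons.1 hp with rfl | hp
        · rcases hQv v hv with h | h
          · exact ⟨C, List.mem_cons_self, h⟩
          · exact ⟨D, List.mem_cons_of_mem _ (h2 D hD), h⟩
        · obtain ⟨c, hc, hvc⟩ := h6 p hp v hv
          exact ⟨c, List.mem_cons_of_mem _ hc, hvc⟩
      · exact h7.sublist List.erase_sublist

end Pool.Agent.L7h23.PO
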