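import Pool.Agent.L7h12.PO.Stm

set_option autoImplicit false

/-! Path odd-covers with at most `n/2 + 12` paths: sorting an `Ok2` family by length (SRT). -/

namespace Pool.Agent.L7h23.PO

open Pool.Agent.W722.PO Pool.Agent.L7h12.PO

theorem star_symm {C D : List ℕ} (h : Star C D) : Star D C := by
  intro x hD hC
  exact (h x hC hD).symm

theorem ok2_symm {C D : List ℕ} (h : Ok2 C D) : Ok2 D C :=
  ⟨star_symm h.1, h.2.symm⟩

theorem s_SRT (hCNT : S_CNT) : S_SRT := by
  intro Cs hc hn hp
  let r : List ℕ → List ℕ → Prop := fun a b => a.length ≤ b.length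
  haveI : Std.Total r := ⟨fun a b => Nat.le_total a.length b.length⟩
  haveI : IsTrans (List ℕ) r := ⟨fun a b c h1 h2 => Nat.le_trans h1 h2⟩
  refine ⟨Cs.insertionSort r, List.perm_insertionSort r Cs, ?_⟩
  intro i h
  have hper : (Cs.insertionSort r).Perm Cs := List.perm_insertionSort r Cs
  have hs : (Cs.insertionSort r).Pairwise r := List.pairwise_insertionSort r Cs
  generalize hE : Cs.insertionSort r = Es at *
  have hEp : Es.Pairwise Ok2 := (hper.pairwise_iff (fun {a b} h => ok2_symm h)).2 hp
  have hEn : (csum Es).Nodup := by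
    have : csum Es = csum Cs := by
      unfold csum
      exact (hper.map cm).sum_eq
    rw [this]; exact hn
  have hEc : ∀ C ∈ Es, IsC C := fun C hC => hc C (hper.mem_iff.1 hC)
  have hsub : (Es.take (i + 1)).Sublist Es := List.take_sublist _ _
  have hlen : (Es.take (i + 1)).length = i + 1 := by
    rw [List.length_take]; omega
  have key := hCNT (Es[i]).length (Es.take (i + 1)) (fun C hC => hEc C (hsub.subset hC)) ?_
    (hEp.sublist hsub) ?_ ?_
  · rw [hlen] at key
    omega
  · have hle : csum (Es.take (i + 1)) ≤ csum Es := by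
      unfold csum
      conv_rhs => rw [← List.take_append_drop (i + 1) Es]
      rw [List.map_append, List.sum_append]
      exact Multiset.le_add_right _ _
    exact Multiset.nodup_of_le hle hEn
  · intro C hC
    rw [List.mem_iff_getElem] at hC
    obtain ⟨j, hj, rfl⟩ := hC
    rw [List.getElem_take]
    have hji : j < i + 1 := by rw [hlen] at hj; exact hj
    rcases Nat.lt_or_eq_of_le (Nat.lt_succ_iff.1 hji) with hlt | heq
    · exact List.pairwise_iff_getElem.1 hs j i (by omega) h hlt
    · subst heq; exact le_rfl
  · intro h0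
    rw [h0] at hlen
    simp at hlen

end Pool.Agent.L7h23.PO
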