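import Pool.Agent.L7h12.PO.Stm
import Pool.Agent.W722.PO.ABS2

set_option autoImplicit false

/-! Path odd-covers with at most `n/2 + 12` paths: the new move T4 for two cycles, each having an edge
outside the other. -/

namespace Pool.Agent.L7h23.PO

open Pool.Agent.W722.PO Pool.Agent.L7h12.PO Pool.Agent.W722.PO.ABS2x

theorem t4_core (y c d w : ℕ) (t t' : List ℕ) (hC : (y :: c :: t).Nodup) (hD : (d :: w :: t').Nodup)
    (hy : y ∉ d :: w :: t') (hc : c ∉ d :: w :: t') (hd : d ∉ y :: c :: t) (hw : w ∉ y :: c :: t) :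
    ∃ P Q : List ℕ, IsP P ∧ IsP Q ∧ (∀ v ∈ P, v ∈ y :: c :: t ∨ v ∈ d :: w :: t') ∧
      (∀ v ∈ Q, v ∈ y :: c :: t ∨ v ∈ d :: w :: t') ∧
      par (cm (y :: c :: t)) + par (cm (d :: w :: t')) = par (pm P) + par (pm Q) := by
  have hCp : ((c :: t) ++ [y]).Perm (y :: c :: t) :=
    List.perm_append_comm (l₁ := c :: t) (l₂ := [y])
  have hDp : ((w :: t') ++ [d]).Perm (d :: w :: t') :=
    List.perm_append_comm (l₁ := w :: t') (l₂ := [d])
  have hwd : w ≠ d := by
    rintro rfl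
    exact (List.nodup_cons.1 hD).1 (by simp)
  have hyc : y ≠ c := by
    rintro rfl
    exact (List.nodup_cons.1 hC).1 (by simp)
  refine ⟨w :: d :: ((c :: t) ++ [y]), ((w :: t') ++ [d]) ++ [c, y], ⟨by simp, ?_⟩, ⟨by simp, ?_⟩,
    ?_, ?_, ?_⟩
  · rw [List.nodup_cons, List.nodup_cons]
    refine ⟨?_, ?_, hCp.nodup_iff.2 hC⟩
    · intro h
      rcases List.mem_cons.1 h with h | h
      · exact hwd h
      · exact hw (hCp.mem_iff.1 h)
    · intro h
      exact hd (hCp.mem_iff.1 h)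
  · rw [List.nodup_append]
    refine ⟨hDp.nodup_iff.2 hD, ?_, ?_⟩
    · rw [List.nodup_cons]
      refine ⟨?_, by simp⟩
      intro h
      exact hyc (List.mem_singleton.1 h).symm
    · intro a ha b hb hab
      subst hab
      have ha' := hDp.mem_iff.1 ha
      rcases List.mem_cons.1 hb with rfl | hb
      · exact hc ha'
      · have : a = y := by simpa using hb
        exact hy (this ▸ ha')
  · intro v hv
    rcases List.mem_cons.1 hv with rfl | hv
    · exact Or.inr (by simp)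
    rcases List.mem_cons.1 hv with rfl | hv
    · exact Or.inr (by simp)
    · exact Or.inl (hCp.mem_iff.1 hv)
  · intro v hv
    rcases List.mem_append.1 hv with hv | hv
    · exact Or.inr (hDp.mem_iff.1 hv)
    · rcases List.mem_cons.1 hv with rfl | hv
      · exact Or.inl (by simp)
      · have : v = y := by simpa using hv
        exact Or.inl (by rw [this]; simp)
  · have e1 : cm (y :: c :: t) = pm [y, c] + pm ((c :: t) ++ [y]) := by
      show s(y, c) ::ₘ pm (c :: t ++ [y]) = (s(y, c) ::ₘ (0 : Multiset (Sym2 ℕ))) + _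
      rw [Multiset.cons_add, zero_add]
    have e2 : cm (d :: w :: t') = pm [d, w] + pm ((w :: t') ++ [d]) := by
      show s(d, w) ::ₘ pm (w :: t' ++ [d]) = (s(d, w) ::ₘ (0 : Multiset (Sym2 ℕ))) + _
      rw [Multiset.cons_add, zero_add]
    have e3 : pm (w :: d :: ((c :: t) ++ [y])) = pm [d, w] + (pm [c, d] + pm ((c :: t) ++ [y])) := by
      show s(w, d) ::ₘ (s(d, c) ::ₘ pm (c :: t ++ [y])) =
        (s(d, w) ::ₘ (0 : Multiset (Sym2 ℕ))) + ((s(c, d) ::ₘ (0 : Multiset (Sym2 ℕ))) + _)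
      rw [Multiset.cons_add, zero_add, Multiset.cons_add, zero_add, Sym2.eq_swap (a := w),
        Sym2.eq_swap (a := d) (b := c)]
    have e4 : pm (((w :: t') ++ [d]) ++ [c, y]) =
        pm ((w :: t') ++ [d]) + (pm [c, d] + pm [y, c]) := by
      have h1 : ((w :: t') ++ [d]) ++ [c, y] = (w :: t') ++ d :: [c, y] := by simp
      rw [h1, pm_append]
      congr 1
      show s(d, c) ::ₘ (s(c, y) ::ₘ (0 : Multiset (Sym2 ℕ))) =
        (s(c, d) ::ₘ (0 : Multiset (Sym2 ℕ))) + (s(y, c) ::ₘ (0 : Multiset (Sym2 ℕ)))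
      rw [Multiset.cons_add, zero_add, Sym2.eq_swap (a := d), Sym2.eq_swap (a := c) (b := y)]
    rw [e1, e2, e3, e4]
    simp only [par_add]
    have h2 : par (pm [c, d]) + par (pm [c, d]) = 0 := by
      funext e
      have h3 : ∀ x : ZMod 2, x + x = 0 := by decide
      exact h3 _
    linear_combination -h2

theorem s_T4 : S_T4 := by
  intro C D hC hD h1 h2
  unfold Cov at h1 h2
  push Not at h1 h2
  obtain ⟨u, v, huv, hu, hv⟩ := h1
  obtain ⟨u', v', huv', hu', hv'⟩ := h2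
  obtain ⟨y, c, t, hyc, hpC, hcC⟩ := edge_rot C u v hC.1 huv
  obtain ⟨d, w, t', hdw, hpD, hcD⟩ := edge_rot D u' v' hD.1 huv'
  have hy : y ∉ D := by rcases hyc with ⟨rfl, rfl⟩ | ⟨rfl, rfl⟩ <;> assumption
  have hc : c ∉ D := by rcases hyc with ⟨rfl, rfl⟩ | ⟨rfl, rfl⟩ <;> assumption
  have hd : d ∉ C := by rcases hdw with ⟨rfl, rfl⟩ | ⟨rfl, rfl⟩ <;> assumption
  have hw : w ∉ C := by rcases hdw with ⟨rfl, rfl⟩ | ⟨rfl, rfl⟩ <;> assumption
  obtain ⟨P, Q, hP, hQ, h3, h4, h5⟩ := t4_core y c d w t t' (hpC.nodup_iff.2 hC.2)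
    (hpD.nodup_iff.2 hD.2) (fun h => hy (hpD.mem_iff.1 h)) (fun h => hc (hpD.mem_iff.1 h))
    (fun h => hd (hpC.mem_iff.1 h)) (fun h => hw (hpC.mem_iff.1 h))
  refine ⟨P, Q, hP, hQ, ?_, ?_, ?_⟩
  · intro v hv
    exact (h3 v hv).imp hpC.mem_iff.1 hpD.mem_iff.1
  · intro v hv
    exact (h4 v hv).imp hpC.mem_iff.1 hpD.mem_iff.1
  · rw [← hcC, ← hcD]
    exact h5

end Pool.Agent.L7h23.PO
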